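import Mathlib

/-!
The bound `B(k, Δ) = ∑_{j=1}^{Δ} k * C(k-1, j)` for neighbour-locating colourings is attained for
all `k ≥ 5`, `3 ≤ Δ ≤ k - 2`.
-/

set_option autoImplicit false

namespace Pool.Agent.Results.MP_3eb9f6_co.BoundAttained

open Finset

/-- The set `C(v)` of colours that occur on the neighbours of `v`. -/
def nbrColors {V : Type} (G : SimpleGraph V) {k : ℕ} (c : V → Fin k) (v : V) : Set (Fin k) :=
  {i | ∃ w, G.Adj v w ∧ c w = i}

/-- `c` is a neighbour-locating colouring of `G`: it is proper, and any two distinct vertices with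
the same colour see different sets of colours. -/
def IsNL {V : Type} (G : SimpleGraph V) {k : ℕ} (c : V → Fin k) : Prop :=
  (∀ u v, G.Adj u v → c u ≠ c v) ∧
  ∀ u v, u ≠ v → c u = c v → nbrColors G c u ≠ nbrColors G c v

/-- `χ_NL(G) = k`: there is a neighbour-locating colouring with `k` (nonempty) colour classes,
and there is none with fewer colours. -/
def ChiNLEq {V : Type} (G : SimpleGraph V) (k : ℕ) : Prop :=
  (∃ c : V → Fin k, Function.Surjective c ∧ IsNL G c) ∧
  ∀ m : ℕ, m < k → ¬ ∃ c : V → Fin m, IsNL G c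

/-! ### Counting -/

theorem card_fiber (m D : ℕ) (i : Fin m) :
    (univ.filter (fun C : Finset (Fin m) => i ∉ C ∧ 1 ≤ C.card ∧ C.card ≤ D)).card
      = ∑ j ∈ Icc 1 D, (m - 1).choose j := by
  have h1 : univ.filter (fun C : Finset (Fin m) => i ∉ C ∧ 1 ≤ C.card ∧ C.card ≤ D)
      = (Icc 1 D).biUnion (fun j => powersetCard j ((univ : Finset (Fin m)).erase i)) := by
    ext C
    simp only [mem_filter, mem_univ, true_and, mem_biUnion, mem_Icc, mem_powersetCard]
    constructor
    · rintro ⟨h1, h2, h3⟩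
      refine ⟨C.card, ⟨h2, h3⟩, ?_, rfl⟩
      intro x hx
      refine mem_erase.2 ⟨?_, mem_univ x⟩
      rintro rfl
      exact h1 hx
    · rintro ⟨j, ⟨h1, h2⟩, h3, h4⟩
      refine ⟨?_, by omega, by omega⟩
      intro hi
      exact (mem_erase.1 (h3 hi)).1 rfl
  rw [h1, card_biUnion]
  · refine sum_congr rfl ?_
    intro j _
    rw [card_powersetCard, card_erase_of_mem (mem_univ i), card_univ, Fintype.card_fin]
  · intro a _ b _ hab
    rw [Function.onFun]
    refine disjoint_left.2 ?_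
    intro C h1 h2
    rw [mem_powersetCard] at h1 h2
    exact hab (h1.2.symm.trans h2.2)

theorem card_pairs (m D : ℕ) :
    (univ.filter (fun p : Fin m × Finset (Fin m) =>
      p.1 ∉ p.2 ∧ 1 ≤ p.2.card ∧ p.2.card ≤ D)).card
      = ∑ j ∈ Icc 1 D, m * (m - 1).choose j := by
  rw [← mul_sum, card_filter, ← univ_product_univ, sum_product]
  have h : ∀ i : Fin m, ∑ C : Finset (Fin m),
      (if (i, C).1 ∉ (i, C).2 ∧ 1 ≤ (i, C).2.card ∧ (i, C).2.card ≤ D then 1 else 0)
      = ∑ j ∈ Icc 1 D, (m - 1).choose j := by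
    intro i
    rw [← card_fiber m D i, card_filter]
  rw [sum_congr rfl (fun i _ => h i), sum_const, card_univ, Fintype.card_fin, smul_eq_mul]

theorem nl_card_le {V : Type} [Fintype V] (G : SimpleGraph V) (D : ℕ)
    (hdeg : ∀ v, (G.neighborSet v).ncard ≤ D) (hiso : ∀ v, ∃ w, G.Adj v w)
    {m : ℕ} (c : V → Fin m) (h : IsNL G c) :
    Fintype.card V ≤ ∑ j ∈ Icc 1 D, m * (m - 1).choose j := by
  classical
  rw [← card_pairs m D, ← card_univ]
  refine card_le_card_of_injOn (fun v => (c v, (nbrColors G c v).toFinset)) ?_ ?_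
  · intro v _
    have himg : nbrColors G c v = c '' (G.neighborSet v) := by
      ext i
      simp [nbrColors]
    have h1 : (nbrColors G c v).toFinset.card = (nbrColors G c v).ncard := by
      rw [Set.ncard_eq_toFinset_card']
    simp only [coe_filter, mem_univ, true_and, Set.mem_ofPred_eq, Set.mem_toFinset]
    refine ⟨?_, ?_, ?_⟩
    · rintro ⟨w, hw, hc⟩
      exact h.1 v w hw hc.symm
    · obtain ⟨w, hw⟩ := hiso v
      exact card_pos.2 ⟨c w, by rw [Set.mem_toFinset]; exact ⟨w, hw, rfl⟩⟩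
    · rw [h1, himg]
      exact (Set.ncard_image_le (Set.toFinite _)).trans (hdeg v)
  · intro u _ v _ huv
    simp only [Prod.mk.injEq, Set.toFinset_inj] at huv
    by_contra hne
    exact h.2 u v hne huv.1 huv.2

theorem nl_lower {V : Type} [Fintype V] (G : SimpleGraph V) (k D : ℕ) (hD : 1 ≤ D) (hk : 2 ≤ k)
    (hdeg : ∀ v, (G.neighborSet v).ncard ≤ D) (hiso : ∀ v, ∃ w, G.Adj v w)
    (hcard : Fintype.card V = ∑ j ∈ Icc 1 D, k * (k - 1).choose j) (m : ℕ) (hm : m < k) :
    ¬ ∃ c : V → Fin m, IsNL G c := by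
  rintro ⟨c, hc⟩
  have h1 := nl_card_le G D hdeg hiso c hc
  rw [hcard, ← mul_sum, ← mul_sum] at h1
  have h2 : ∑ j ∈ Icc 1 D, (m - 1).choose j ≤ ∑ j ∈ Icc 1 D, (k - 1).choose j :=
    sum_le_sum (fun j _ => Nat.choose_le_choose j (by omega))
  have h3 : 0 < ∑ j ∈ Icc 1 D, (k - 1).choose j := by
    refine sum_pos' (fun _ _ => Nat.zero_le _) ⟨1, mem_Icc.2 ⟨le_refl 1, hD⟩, ?_⟩
    rw [Nat.choose_one_right]
    omega
  have h4 : m * ∑ j ∈ Icc 1 D, (m - 1).choose j ≤ m * ∑ j ∈ Icc 1 D, (k - 1).choose j :=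
    Nat.mul_le_mul_left m h2
  have h5 : m * ∑ j ∈ Icc 1 D, (k - 1).choose j < k * ∑ j ∈ Icc 1 D, (k - 1).choose j :=
    Nat.mul_lt_mul_of_pos_right hm h3
  omega

/-! ### The graphs `GG` -/

section Family

variable {k : ℕ}

/-- `(i, S)` with `i ∈ S`, `2 ≤ |S| ≤ D + 1`; it stands for the vertex of colour `i` that sees
exactly the colours in `S \ {i}`. -/
def Valid (D : ℕ) (p : Fin k × Finset (Fin k)) : Prop :=
  p.1 ∈ p.2 ∧ 2 ≤ p.2.card ∧ p.2.card ≤ D + 1

/-- The sets that contain the two colours `i` and `j`. -/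
def Good (D : ℕ) (i j : Fin k) (S : Finset (Fin k)) : Prop :=
  i ∈ S ∧ j ∈ S ∧ S.card ≤ D + 1

theorem Good.two_le {D : ℕ} {i j : Fin k} {S : Finset (Fin k)} (h : Good D i j S) (hij : i ≠ j) :
    2 ≤ S.card := by
  have h1 : ({i, j} : Finset (Fin k)) ⊆ S := by
    intro x hx
    rw [mem_insert, mem_singleton] at hx
    rcases hx with rfl | rfl
    · exact h.1
    · exact h.2.1
  have h2 := card_le_card h1
  rwa [card_pair hij] at h2

theorem Good.valid_left {D : ℕ} {i j : Fin k} {S : Finset (Fin k)} (h : Good D i j S)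
    (hij : i ≠ j) : Valid D (i, S) := ⟨h.1, h.two_le hij, h.2.2⟩

theorem Good.valid_right {D : ℕ} {i j : Fin k} {S : Finset (Fin k)} (h : Good D i j S)
    (hij : i ≠ j) : Valid D (j, S) := ⟨h.2.1, h.two_le hij, h.2.2⟩

/-- The adjacency: `(i, S)` and `(j, T)` with `i < j` are adjacent iff `j ∈ S` and
`T = π i j S`. -/
def AdjRel (π : Fin k → Fin k → Equiv.Perm (Finset (Fin k))) (p q : Fin k × Finset (Fin k)) :
    Prop :=
  (p.1 < q.1 ∧ q.1 ∈ p.2 ∧ q.2 = π p.1 q.1 p.2) ∨ (q.1 < p.1 ∧ p.1 ∈ q.2 ∧ p.2 = π q.1 p.1 q.2)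

/-- The graph on the valid pairs. -/
def GG (D : ℕ) (π : Fin k → Fin k → Equiv.Perm (Finset (Fin k))) :
    SimpleGraph {p : Fin k × Finset (Fin k) // Valid D p} where
  Adj p q := AdjRel π p.1 q.1
  symm := by
    constructor
    intro p q h
    rcases h with h | h
    · exact Or.inr h
    · exact Or.inl h
  loopless := by
    constructor
    intro p h
    rcases h with h | h
    · exact lt_irrefl _ h.1
    · exact lt_irrefl _ h.1

/-- The permutations `π i j` preserve the sets containing `i` and `j`. -/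
def PermOK (D : ℕ) (π : Fin k → Fin k → Equiv.Perm (Finset (Fin k))) : Prop :=
  ∀ i j, i < j → ∀ S, Good D i j S ↔ Good D i j (π i j S)

variable {D : ℕ} {π : Fin k → Fin k → Equiv.Perm (Finset (Fin k))}

theorem adj_color (hπ : PermOK D π) {p q : {p : Fin k × Finset (Fin k) // Valid D p}}
    (h : (GG D π).Adj p q) : q.1.1 ∈ p.1.2 ∧ q.1.1 ≠ p.1.1 := by
  rcases h with ⟨h1, h2, h3⟩ | ⟨h1, h2, h3⟩
  · exact ⟨h2, h1.ne'⟩
  · refine ⟨?_, h1.ne⟩
    have h4 : Good D q.1.1 p.1.1 q.1.2 := ⟨q.2.1, h2, q.2.2.2⟩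
    rw [hπ _ _ h1] at h4
    rw [h3]
    exact h4.1

theorem adj_unique {p q q' : {p : Fin k × Finset (Fin k) // Valid D p}}
    (h : (GG D π).Adj p q) (h' : (GG D π).Adj p q') (hc : q.1.1 = q'.1.1) : q = q' := by
  obtain ⟨⟨j, T⟩, hT⟩ := q
  obtain ⟨⟨j', T'⟩, hT'⟩ := q'
  simp only at hc
  subst hc
  rcases h with ⟨h1, h2, h3⟩ | ⟨h1, h2, h3⟩ <;> rcases h' with ⟨h1', h2', h3'⟩ | ⟨h1', h2', h3'⟩
  · simp only at h3 h3'
    subst h3
    subst h3'
    rfl
  · exact absurd h1 (lt_asymm h1')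
  · exact absurd h1 (lt_asymm h1')
  · simp only at h3 h3'
    have h4 : T = T' := (π j p.1.1).injective (h3.symm.trans h3')
    subst h4
    rfl

theorem adj_exists (hπ : PermOK D π) (p : {p : Fin k × Finset (Fin k) // Valid D p})
    {j : Fin k} (hj : j ∈ p.1.2) (hne : j ≠ p.1.1) : ∃ q, (GG D π).Adj p q ∧ q.1.1 = j := by
  rcases lt_or_gt_of_ne hne with hlt | hlt
  · have h1 : Good D j p.1.1 p.1.2 := ⟨hj, p.2.1, p.2.2.2⟩
    have h2 : Good D j p.1.1 ((π j p.1.1).symm p.1.2) := by
      rw [hπ _ _ hlt, Equiv.apply_symm_apply]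
      exact h1
    refine ⟨⟨(j, (π j p.1.1).symm p.1.2), h2.valid_left hlt.ne⟩, Or.inr ⟨hlt, h2.2.1, ?_⟩, rfl⟩
    exact (Equiv.apply_symm_apply _ _).symm
  · have h1 : Good D p.1.1 j p.1.2 := ⟨p.2.1, hj, p.2.2.2⟩
    have h2 : Good D p.1.1 j (π p.1.1 j p.1.2) := (hπ _ _ hlt _).1 h1
    exact ⟨⟨(j, π p.1.1 j p.1.2), h2.valid_right hlt.ne⟩, Or.inl ⟨hlt, hj, rfl⟩, rfl⟩

/-- The colouring of the vertices. -/
def col (p : {p : Fin k × Finset (Fin k) // Valid D p}) : Fin k := p.1.1

theorem nbrColors_eq (hπ : PermOK D π) (p : {p : Fin k × Finset (Fin k) // Valid D p}) :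
    nbrColors (GG D π) col p = ↑(p.1.2.erase p.1.1) := by
  ext j
  simp only [nbrColors, Set.mem_ofPred_eq, coe_erase, Set.mem_sdiff, mem_coe,
    Set.mem_singleton_iff]
  constructor
  · rintro ⟨q, hq, rfl⟩
    exact adj_color hπ hq
  · rintro ⟨h1, h2⟩
    exact adj_exists hπ p h1 h2

theorem isNL_col (hπ : PermOK D π) : IsNL (GG D π) (col : _ → Fin k) := by
  constructor
  · intro p q h
    exact (adj_color hπ h).2.symm
  · intro p q hne hc heq
    rw [nbrColors_eq hπ, nbrColors_eq hπ, coe_inj] at heq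
    apply hne
    obtain ⟨⟨i, S⟩, hS⟩ := p
    obtain ⟨⟨j, T⟩, hT⟩ := q
    simp only [col] at hc heq
    subst hc
    have h1 : insert i (S.erase i) = insert i (T.erase i) := by rw [heq]
    rw [insert_erase hS.1, insert_erase hT.1] at h1
    subst h1
    rfl

theorem degree_eq (hπ : PermOK D π) (p : {p : Fin k × Finset (Fin k) // Valid D p}) :
    ((GG D π).neighborSet p).ncard = p.1.2.card - 1 := by
  have himg : nbrColors (GG D π) col p = col '' ((GG D π).neighborSet p) := by
    ext i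
    simp [nbrColors]
  have h1 : (col '' ((GG D π).neighborSet p)).ncard = ((GG D π).neighborSet p).ncard := by
    exact Set.InjOn.ncard_image (fun q hq q' hq' hc => adj_unique hq hq' hc)
  rw [← h1, ← himg, nbrColors_eq hπ, Set.ncard_coe_finset, card_erase_of_mem p.2.1]

theorem card_valid (D : ℕ) [Fintype {p : Fin k × Finset (Fin k) // Valid D p}] :
    Fintype.card {p : Fin k × Finset (Fin k) // Valid D p}
      = ∑ j ∈ Icc 1 D, k * (k - 1).choose j := by
  classical
  rw [← card_pairs k D, ← Fintype.card_coe]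
  refine Fintype.card_congr ⟨fun p => ⟨(p.1.1, p.1.2.erase p.1.1), ?_⟩,
    fun p => ⟨(p.1.1, insert p.1.1 p.1.2), ?_⟩, ?_, ?_⟩
  · have h1 := p.2.1
    have h2 := p.2.2.1
    have h3 := p.2.2.2
    rw [mem_filter]
    refine ⟨mem_univ _, notMem_erase _ _, ?_, ?_⟩
    · simp only
      rw [card_erase_of_mem h1]
      omega
    · simp only
      rw [card_erase_of_mem h1]
      omega
  · have h := (mem_filter.1 p.2).2
    refine ⟨mem_insert_self _ _, ?_, ?_⟩
    · simp only
      rw [card_insert_of_notMem h.1]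
      omega
    · simp only
      rw [card_insert_of_notMem h.1]
      omega
  · rintro ⟨⟨i, S⟩, hS⟩
    simp only [insert_erase hS.1]
  · rintro ⟨⟨i, S⟩, hS⟩
    have h := (mem_filter.1 hS).2
    simp only [erase_insert h.1]

theorem family_result (hk : 2 ≤ k) (hD : 1 ≤ D) (hDk : D + 1 ≤ k) (hπ : PermOK D π)
    (hconn : (GG D π).Connected) :
    ∃ (V : Type) (_ : Fintype V) (G : SimpleGraph V),
      G.Connected ∧ ChiNLEq G k ∧
      (∀ v, (G.neighborSet v).ncard ≤ D) ∧ (∃ v, (G.neighborSet v).ncard = D) ∧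
      Fintype.card V = ∑ j ∈ Icc 1 D, k * (k - 1).choose j := by
  classical
  have inst : Fintype {p : Fin k × Finset (Fin k) // Valid D p} := Fintype.ofFinite _
  have hdeg : ∀ v, ((GG D π).neighborSet v).ncard ≤ D := by
    intro v
    rw [degree_eq hπ]
    have := v.2.2.2
    omega
  refine ⟨{p : Fin k × Finset (Fin k) // Valid D p}, inst, GG D π, hconn, ⟨?_, ?_⟩, hdeg, ?_,
    card_valid D⟩
  · refine ⟨col, ?_, isNL_col hπ⟩
    intro i
    obtain ⟨j, hj⟩ : ∃ j : Fin k, j ≠ i := by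
      by_cases h0 : i.1 = 0
      · exact ⟨⟨1, by omega⟩, fun h => by rw [← h] at h0; simp at h0⟩
      · exact ⟨⟨0, by omega⟩, fun h => by rw [← h] at h0; simp at h0⟩
    refine ⟨⟨(i, {i, j}), mem_insert_self _ _, ?_, ?_⟩, rfl⟩
    · simp only
      rw [card_pair hj.symm]
    · simp only
      rw [card_pair hj.symm]
      omega
  · refine nl_lower (GG D π) k D hD hk hdeg ?_ (card_valid D)
    intro v
    have h2 := v.2.2.1
    obtain ⟨j, hj⟩ : (v.1.2.erase v.1.1).Nonempty := by
      rw [← card_pos, card_erase_of_mem v.2.1]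
      omega
    obtain ⟨q, hq, _⟩ := adj_exists hπ v (mem_erase.1 hj).2 (mem_erase.1 hj).1
    exact ⟨q, hq⟩
  · obtain ⟨S, _, hS⟩ := exists_subset_card_eq (s := (univ : Finset (Fin k))) (n := D + 1)
      (by rw [card_univ, Fintype.card_fin]; exact hDk)
    obtain ⟨i, hi⟩ : S.Nonempty := by
      rw [← card_pos]
      omega
    refine ⟨⟨(i, S), hi, by simp only; omega, by simp only; omega⟩, ?_⟩
    rw [degree_eq hπ]
    simp only
    omega

end Family

/-! ### Connectivity -/

section Conn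

variable {k D : ℕ} {π : Fin k → Fin k → Equiv.Perm (Finset (Fin k))}

/-- Two valid pairs in the same component. -/
def Conn (D : ℕ) (π : Fin k → Fin k → Equiv.Perm (Finset (Fin k)))
    (p q : Fin k × Finset (Fin k)) : Prop :=
  ∃ (hp : Valid D p) (hq : Valid D q), (GG D π).Reachable ⟨p, hp⟩ ⟨q, hq⟩

theorem Conn.symm {p q : Fin k × Finset (Fin k)} (h : Conn D π p q) : Conn D π q p := by
  obtain ⟨hp, hq, h⟩ := h
  exact ⟨hq, hp, h.symm⟩

theorem Conn.trans {p q r : Fin k × Finset (Fin k)} (h : Conn D π p q) (h' : Conn D π q r) :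
    Conn D π p r := by
  obtain ⟨hp, hq, h⟩ := h
  obtain ⟨hq', hr, h'⟩ := h'
  exact ⟨hp, hr, h.trans h'⟩

theorem Conn.refl {p : Fin k × Finset (Fin k)} (hp : Valid D p) : Conn D π p p :=
  ⟨hp, hp, SimpleGraph.Reachable.refl _⟩

theorem conn_edge (hπ : PermOK D π) {i j : Fin k} (hij : i < j) {S : Finset (Fin k)}
    (hS : Good D i j S) : Conn D π (i, S) (j, π i j S) := by
  refine ⟨hS.valid_left hij.ne, ((hπ _ _ hij _).1 hS).valid_right hij.ne, ?_⟩
  apply SimpleGraph.Adj.reachable
  exact Or.inl ⟨hij, hS.2.1, rfl⟩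

theorem conn_cycle (hπ : PermOK D π) {i j : Fin k} (hij : i < j)
    (F : Finset (Finset (Fin k))) (hF : (π i j).IsCycleOn F)
    (h0 : ({i, j} : Finset (Fin k)) ∈ F) (hgood : ∀ S ∈ F, Good D i j S)
    (hin : ∀ S ∈ F, S ≠ {i, j} → Conn D π (i, S) (j, S)) :
    ∀ S ∈ F, Conn D π (i, {i, j}) (i, S) ∧ Conn D π (i, {i, j}) (j, S) := by
  have hmem : ∀ n : ℕ, ((π i j) ^ n) {i, j} ∈ F := by
    intro n
    have h1 := hF.1.perm_pow n
    exact h1.mapsTo h0
  have hv : Valid D (i, ({i, j} : Finset (Fin k))) := (hgood _ h0).valid_left hij.ne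
  have key : ∀ n : ℕ, Conn D π (i, {i, j}) (i, ((π i j) ^ n) {i, j}) ∧
      Conn D π (i, {i, j}) (j, ((π i j) ^ (n + 1)) {i, j}) := by
    intro n
    induction n with
    | zero =>
      refine ⟨by rw [pow_zero]; exact Conn.refl hv, ?_⟩
      rw [zero_add, pow_one]
      exact conn_edge hπ hij (hgood _ h0)
    | succ n ih =>
      have h1 : Conn D π (i, {i, j}) (i, ((π i j) ^ (n + 1)) {i, j}) := by
        by_cases he : ((π i j) ^ (n + 1)) {i, j} = {i, j}
        · rw [he]
          exact Conn.refl hv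
        · exact ih.2.trans (hin _ (hmem _) he).symm
      refine ⟨h1, h1.trans ?_⟩
      have h2 := conn_edge hπ hij (hgood _ (hmem (n + 1)))
      rw [pow_succ' (π i j) (n + 1)]
      exact h2
  intro S hS
  obtain ⟨n, _, hn⟩ := hF.exists_pow_eq h0 hS
  refine ⟨hn ▸ (key n).1, ?_⟩
  rcases Nat.eq_zero_or_pos n with rfl | hpos
  · have h1 : ((π i j) ^ F.card) {i, j} = {i, j} := hF.pow_card_apply h0
    have h2 : 0 < F.card := card_pos.2 ⟨_, h0⟩
    have h3 := (key (F.card - 1)).2
    rw [Nat.sub_add_cancel h2, h1] at h3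
    rw [pow_zero] at hn
    rw [← hn]
    exact h3
  · have h3 := (key (n - 1)).2
    rw [Nat.sub_add_cancel hpos, hn] at h3
    exact h3

/-- A subset of `Fin k` given by (at most) four values. -/
def four (k a b c d : ℕ) : Finset (Fin k) :=
  univ.filter (fun x => x.1 = a ∨ x.1 = b ∨ x.1 = c ∨ x.1 = d)

theorem mem_four {a b c d : ℕ} {x : Fin k} :
    x ∈ four k a b c d ↔ (x.1 = a ∨ x.1 = b ∨ x.1 = c ∨ x.1 = d) := by
  simp [four]

theorem card_four_le (a b c d : ℕ) : (four k a b c d).card ≤ 4 := by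
  have h : (four k a b c d).card ≤ ({a, b, c, d} : Finset ℕ).card := by
    refine card_le_card_of_injOn (fun x => x.1) ?_ ?_
    · intro x hx
      rw [mem_coe, mem_four] at hx
      simp only [coe_insert, coe_singleton, Set.mem_insert_iff, Set.mem_singleton_iff]
      exact hx
    · intro x _ y _ h
      exact Fin.ext h
  exact h.trans card_le_four

theorem four_inj {a b c d a' b' c' d' : ℕ} (h1 : a < b) (h2 : b < c) (h3 : c < d) (h4 : d < k)
    (h1' : a' < b') (h2' : b' < c') (h3' : c' < d') (h4' : d' < k)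
    (h : four k a b c d = four k a' b' c' d') : a = a' ∧ b = b' ∧ c = c' ∧ d = d' := by
  have key : ∀ x : ℕ, x < k →
      ((x = a ∨ x = b ∨ x = c ∨ x = d) ↔ (x = a' ∨ x = b' ∨ x = c' ∨ x = d')) := by
    intro x hx
    have := Finset.ext_iff.1 h ⟨x, hx⟩
    rwa [mem_four, mem_four] at this
  have ka := key a (by omega)
  have kb := key b (by omega)
  have kc := key c (by omega)
  have kd := key d (by omega)
  have ka' := key a' (by omega)
  have kb' := key b' (by omega)
  have kc' := key c' (by omega)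
  have kd' := key d' (by omega)
  omega

end Conn

/-! ### The case `k ≥ 6` -/

section Big

variable {k D : ℕ}

/-- The sets through which the cyclic permutation `π i j` runs. -/
def P (D : ℕ) (i j : Fin k) (S : Finset (Fin k)) : Prop :=
  Good D i j S ∧
  ((∀ x ∈ S, x = i ∨ j ≤ x) ∨
   (0 < i.1 ∧ j.1 + 1 < k ∧ S = four k 0 i.1 j.1 (k - 1)) ∨
   (i.1 = 0 ∧ 2 ≤ j.1 ∧ j.1 + 1 < k ∧ S = four k 0 1 j.1 (k - 1)) ∨
   (j.1 + 1 = k ∧
     ((i.1 = 0 ∧ S = four k 0 2 3 (k - 1)) ∨ (i.1 = 1 ∧ S = four k 1 2 3 (k - 1)) ∨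
      (i.1 = 2 ∧ S = four k 1 2 4 (k - 1)) ∨ (3 ≤ i.1 ∧ S = four k 1 2 i.1 (k - 1)))))

theorem P_four_cases (hk : 6 ≤ k) {i j : Fin k} (hij : i < j) {a b c d : ℕ} (h1 : a < b)
    (h2 : b < c) (h3 : c < d) (h4 : d < k) (h : P D i j (four k a b c d)) :
    ((a = i.1 ∨ j.1 ≤ a) ∧ (b = i.1 ∨ j.1 ≤ b) ∧ (c = i.1 ∨ j.1 ≤ c) ∧ (d = i.1 ∨ j.1 ≤ d)) ∨
    (0 < i.1 ∧ j.1 + 1 < k ∧ a = 0 ∧ b = i.1 ∧ c = j.1 ∧ d = k - 1) ∨
    (i.1 = 0 ∧ 2 ≤ j.1 ∧ j.1 + 1 < k ∧ a = 0 ∧ b = 1 ∧ c = j.1 ∧ d = k - 1) ∨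
    (j.1 + 1 = k ∧
     ((i.1 = 0 ∧ a = 0 ∧ b = 2 ∧ c = 3) ∨ (i.1 = 1 ∧ a = 1 ∧ b = 2 ∧ c = 3) ∨
      (i.1 = 2 ∧ a = 1 ∧ b = 2 ∧ c = 4) ∨ (3 ≤ i.1 ∧ a = 1 ∧ b = 2 ∧ c = i.1))) := by
  have hij' : i.1 < j.1 := hij
  have hj : j.1 < k := j.2
  rcases h.2 with h | ⟨g1, g2, h⟩ | ⟨g1, g2, g3, h⟩ | ⟨g1, h⟩
  · left
    have key : ∀ x : ℕ, x < k → (x = a ∨ x = b ∨ x = c ∨ x = d) → (x = i.1 ∨ j.1 ≤ x) := by
      intro x hx hx'
      rcases h ⟨x, hx⟩ (mem_four.2 hx') with h5 | h5
      · left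
        rw [← h5]
      · right
        exact h5
    exact ⟨key a (by omega) (by omega), key b (by omega) (by omega), key c (by omega) (by omega),
      key d (by omega) (by omega)⟩
  · right; left
    obtain ⟨e1, e2, e3, e4⟩ := four_inj h1 h2 h3 h4 g1 (by omega) (by omega) (by omega) h
    exact ⟨g1, g2, e1, e2, e3, e4⟩
  · right; right; left
    obtain ⟨e1, e2, e3, e4⟩ := four_inj h1 h2 h3 h4 (by omega) (by omega) (by omega) (by omega) h
    exact ⟨g1, g2, g3, e1, e2, e3, e4⟩
  · right; right; right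
    refine ⟨g1, ?_⟩
    rcases h with ⟨g2, h⟩ | ⟨g2, h⟩ | ⟨g2, h⟩ | ⟨g2, h⟩
    · obtain ⟨e1, e2, e3, e4⟩ := four_inj h1 h2 h3 h4 (by omega) (by omega) (by omega) (by omega) h
      omega
    · obtain ⟨e1, e2, e3, e4⟩ := four_inj h1 h2 h3 h4 (by omega) (by omega) (by omega) (by omega) h
      omega
    · obtain ⟨e1, e2, e3, e4⟩ := four_inj h1 h2 h3 h4 (by omega) (by omega) (by omega) (by omega) h
      omega
    · obtain ⟨e1, e2, e3, e4⟩ := four_inj h1 h2 h3 h4 (by omega) (by omega) (by omega) (by omega) h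
      omega

/-- The properties of the permutations that we use. -/
def Cyc (D : ℕ) (π : Fin k → Fin k → Equiv.Perm (Finset (Fin k))) : Prop :=
  ∀ i j, ∃ F : Finset (Finset (Fin k)), (∀ S, S ∈ F ↔ P D i j S) ∧ (π i j).IsCycleOn F ∧
    (π i j).support ⊆ F

theorem exists_cyc (k D : ℕ) :
    ∃ π : Fin k → Fin k → Equiv.Perm (Finset (Fin k)), Cyc D π := by
  classical
  have h : ∀ i j : Fin k, ∃ f : Equiv.Perm (Finset (Fin k)),
      ∃ F : Finset (Finset (Fin k)), (∀ S, S ∈ F ↔ P D i j S) ∧ f.IsCycleOn F ∧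
      f.support ⊆ F := by
    intro i j
    obtain ⟨f, hf⟩ := Finset.exists_cycleOn (univ.filter (fun S => P D i j S))
    exact ⟨f, univ.filter (fun S => P D i j S), by simp, by simpa using hf.1, hf.2⟩
  choose π hπ using h
  exact ⟨π, hπ⟩

variable {π : Fin k → Fin k → Equiv.Perm (Finset (Fin k))}

theorem Cyc.fix (hc : Cyc D π) {i j : Fin k} {S : Finset (Fin k)} (h : ¬ P D i j S) :
    π i j S = S := by
  obtain ⟨F, h1, _, h3⟩ := hc i j
  by_contra hne
  exact h ((h1 S).1 (h3 (Equiv.Perm.mem_support.2 hne)))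

theorem Cyc.permOK (hc : Cyc D π) : PermOK D π := by
  intro i j _ S
  by_cases h : P D i j S
  · obtain ⟨F, h1, h2, _⟩ := hc i j
    have h4 : π i j S ∈ F := by
      have h5 : S ∈ F := (h1 S).2 h
      exact (h2.apply_mem_iff).2 h5
    exact ⟨fun _ => ((h1 _).1 h4).1, fun _ => h.1⟩
  · rw [hc.fix h]

theorem conn_in (hc : Cyc D π) {x y : Fin k} (hxy : x < y) {S : Finset (Fin k)} (hx : x ∈ S)
    (hy : y ∈ S) (hS : S.card ≤ D + 1) (h : ¬ P D x y S) : Conn D π (x, S) (y, S) := by
  have h1 := conn_edge hc.permOK hxy (S := S) ⟨hx, hy, hS⟩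
  rwa [hc.fix h] at h1

/-- Inside a four-element set, two elements that form an unused pair are in the same
component. -/
theorem conn_in_four (hc : Cyc D π) (hk : 6 ≤ k) {a b c d : ℕ} (h1 : a < b) (h2 : b < c)
    (h3 : c < d) (h4 : d < k) (hS : (four k a b c d).card ≤ D + 1) (x y : ℕ) (hxy : x < y)
    (hyk : y < k)
    (hx : x = a ∨ x = b ∨ x = c ∨ x = d) (hy : y = a ∨ y = b ∨ y = c ∨ y = d)
    (hn : ¬ (((a = x ∨ y ≤ a) ∧ (b = x ∨ y ≤ b) ∧ (c = x ∨ y ≤ c) ∧ (d = x ∨ y ≤ d)) ∨
    (0 < x ∧ y + 1 < k ∧ a = 0 ∧ b = x ∧ c = y ∧ d = k - 1) ∨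
    (x = 0 ∧ 2 ≤ y ∧ y + 1 < k ∧ a = 0 ∧ b = 1 ∧ c = y ∧ d = k - 1) ∨
    (y + 1 = k ∧
     ((x = 0 ∧ a = 0 ∧ b = 2 ∧ c = 3) ∨ (x = 1 ∧ a = 1 ∧ b = 2 ∧ c = 3) ∨
      (x = 2 ∧ a = 1 ∧ b = 2 ∧ c = 4) ∨ (3 ≤ x ∧ a = 1 ∧ b = 2 ∧ c = x))))) :
    Conn D π (⟨x, by omega⟩, four k a b c d) (⟨y, hyk⟩, four k a b c d) := by
  refine conn_in hc (Fin.mk_lt_mk.2 hxy) (mem_four.2 hx) (mem_four.2 hy) hS ?_
  intro hP
  exact hn (P_four_cases hk (Fin.mk_lt_mk.2 hxy) h1 h2 h3 h4 hP)

theorem conn_inner (hc : Cyc D π) (hk : 6 ≤ k) {S : Finset (Fin k)} (h3 : 3 ≤ S.card)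
    (hS : S.card ≤ D + 1) : ∀ x ∈ S, ∀ y ∈ S, Conn D π (x, S) (y, S) := by
  have hne : S.Nonempty := by
    rw [← card_pos]
    omega
  have hv : ∀ x ∈ S, Valid D (x, S) := fun x hx => ⟨hx, by simp only; omega, hS⟩
  suffices h : ∃ M, ∀ x ∈ S, Conn D π (x, S) (M, S) by
    obtain ⟨M, h⟩ := h
    intro x hx y hy
    exact (h x hx).trans (h y hy).symm
  have hM : S.max' hne ∈ S := S.max'_mem hne
  have hle : ∀ x ∈ S, x ≤ S.max' hne := fun x hx => S.le_max' x hx
  generalize S.max' hne = M at hM hle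
  refine ⟨M, ?_⟩
  by_cases hstar : ∀ x ∈ S, x ≠ M → ¬ P D x M S
  · intro x hx
    by_cases hxM : x = M
    · rw [hxM]
      exact Conn.refl (hv M hM)
    · exact conn_in hc (lt_of_le_of_ne (hle x hx) hxM) hx hM hS (hstar x hx hxM)
  · push Not at hstar
    obtain ⟨x, hx, hxM, hP⟩ := hstar
    have hxM' : x.1 < M.1 := Fin.lt_def.1 (lt_of_le_of_ne (hle x hx) hxM)
    rcases hP.2 with h | ⟨_, g2, h⟩ | ⟨_, _, g2, h⟩ | ⟨g1, h⟩
    · exfalso
      have h5 : S ⊆ {x, M} := by
        intro z hz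
        rw [mem_insert, mem_singleton]
        rcases h z hz with h6 | h6
        · exact Or.inl h6
        · exact Or.inr (le_antisymm (hle z hz) h6)
      have h6 := (card_le_card h5).trans card_le_two
      omega
    · exfalso
      have h5 : (⟨k - 1, by omega⟩ : Fin k) ∈ S := by
        rw [h]
        exact mem_four.2 (by simp)
      have h6 : k - 1 ≤ M.1 := hle _ h5
      omega
    · exfalso
      have h5 : (⟨k - 1, by omega⟩ : Fin k) ∈ S := by
        rw [h]
        exact mem_four.2 (by simp)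
      have h6 : k - 1 ≤ M.1 := hle _ h5
      omega
    · have hMeq : M = ⟨k - 1, by omega⟩ := Fin.ext (by simp only; omega)
      -- the four kinds of sets
      have hcases : S = four k 0 2 3 (k - 1) ∨ S = four k 1 2 3 (k - 1) ∨
          S = four k 1 2 4 (k - 1) ∨ ∃ i, 5 ≤ i ∧ i + 1 < k ∧ S = four k 1 2 i (k - 1) := by
        rcases h with ⟨_, h⟩ | ⟨_, h⟩ | ⟨_, h⟩ | ⟨h0, h⟩
        · exact Or.inl h
        · exact Or.inr (Or.inl h)
        · exact Or.inr (Or.inr (Or.inl h))
        · by_cases e3 : x.1 = 3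
          · rw [e3] at h
            exact Or.inr (Or.inl h)
          · by_cases e4 : x.1 = 4
            · rw [e4] at h
              exact Or.inr (Or.inr (Or.inl h))
            · exact Or.inr (Or.inr (Or.inr ⟨x.1, by omega, by omega, h⟩))
      rw [hMeq]
      rcases hcases with h | h | h | ⟨i, hi1, hi2, h⟩
      · subst h
        have e1 := conn_in_four hc hk (a := 0) (b := 2) (c := 3) (d := k - 1) (by omega) (by omega)
          (by omega) (by omega) hS 0 3 (by omega) (by omega) (by omega) (by omega) (by omega)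
        have e2 := conn_in_four hc hk (a := 0) (b := 2) (c := 3) (d := k - 1) (by omega) (by omega)
          (by omega) (by omega) hS 3 (k - 1) (by omega) (by omega) (by omega) (by omega) (by omega)
        have e3 := conn_in_four hc hk (a := 0) (b := 2) (c := 3) (d := k - 1) (by omega) (by omega)
          (by omega) (by omega) hS 2 (k - 1) (by omega) (by omega) (by omega) (by omega) (by omega)
        intro y hy
        obtain ⟨y, hyk⟩ := y
        rcases mem_four.1 hy with h5 | h5 | h5 | h5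
        · simp only at h5
          subst h5
          exact e1.trans e2
        · simp only at h5
          subst h5
          exact e3
        · simp only at h5
          subst h5
          exact e2
        · simp only at h5
          subst h5
          exact Conn.refl (hv _ hy)
      · subst h
        have e1 := conn_in_four hc hk (a := 1) (b := 2) (c := 3) (d := k - 1) (by omega) (by omega)
          (by omega) (by omega) hS 1 3 (by omega) (by omega) (by omega) (by omega) (by omega)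
        have e2 := conn_in_four hc hk (a := 1) (b := 2) (c := 3) (d := k - 1) (by omega) (by omega)
          (by omega) (by omega) hS 2 3 (by omega) (by omega) (by omega) (by omega) (by omega)
        have e3 := conn_in_four hc hk (a := 1) (b := 2) (c := 3) (d := k - 1) (by omega) (by omega)
          (by omega) (by omega) hS 2 (k - 1) (by omega) (by omega) (by omega) (by omega) (by omega)
        intro y hy
        obtain ⟨y, hyk⟩ := y
        rcases mem_four.1 hy with h5 | h5 | h5 | h5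
        · simp only at h5
          subst h5
          exact e1.trans (e2.symm.trans e3)
        · simp only at h5
          subst h5
          exact e3
        · simp only at h5
          subst h5
          exact e2.symm.trans e3
        · simp only at h5
          subst h5
          exact Conn.refl (hv _ hy)
      · subst h
        have e1 := conn_in_four hc hk (a := 1) (b := 2) (c := 4) (d := k - 1) (by omega) (by omega)
          (by omega) (by omega) hS 2 4 (by omega) (by omega) (by omega) (by omega) (by omega)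
        have e2 := conn_in_four hc hk (a := 1) (b := 2) (c := 4) (d := k - 1) (by omega) (by omega)
          (by omega) (by omega) hS 1 4 (by omega) (by omega) (by omega) (by omega) (by omega)
        have e3 := conn_in_four hc hk (a := 1) (b := 2) (c := 4) (d := k - 1) (by omega) (by omega)
          (by omega) (by omega) hS 1 (k - 1) (by omega) (by omega) (by omega) (by omega) (by omega)
        intro y hy
        obtain ⟨y, hyk⟩ := y
        rcases mem_four.1 hy with h5 | h5 | h5 | h5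
        · simp only at h5
          subst h5
          exact e3
        · simp only at h5
          subst h5
          exact e1.trans (e2.symm.trans e3)
        · simp only at h5
          subst h5
          exact e2.symm.trans e3
        · simp only at h5
          subst h5
          exact Conn.refl (hv _ hy)
      · subst h
        have e1 := conn_in_four hc hk (a := 1) (b := 2) (c := i) (d := k - 1) (by omega) (by omega)
          (by omega) (by omega) hS 1 i (by omega) (by omega) (by omega) (by omega) (by omega)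
        have e2 := conn_in_four hc hk (a := 1) (b := 2) (c := i) (d := k - 1) (by omega) (by omega)
          (by omega) (by omega) hS 2 i (by omega) (by omega) (by omega) (by omega) (by omega)
        have e3 := conn_in_four hc hk (a := 1) (b := 2) (c := i) (d := k - 1) (by omega) (by omega)
          (by omega) (by omega) hS 1 (k - 1) (by omega) (by omega) (by omega) (by omega) (by omega)
        intro y hy
        obtain ⟨y, hyk⟩ := y
        rcases mem_four.1 hy with h5 | h5 | h5 | h5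
        · simp only at h5
          subst h5
          exact e3
        · simp only at h5
          subst h5
          exact e2.trans (e1.symm.trans e3)
        · simp only at h5
          subst h5
          exact e1.symm.trans e3
        · simp only at h5
          subst h5
          exact Conn.refl (hv _ hy)

theorem conn_cyc (hc : Cyc D π) (hk : 6 ≤ k) {i j : Fin k} (hij : i < j) (hD : 1 ≤ D)
    {S : Finset (Fin k)} (hS : P D i j S) :
    Conn D π (i, {i, j}) (i, S) ∧ Conn D π (i, {i, j}) (j, S) := by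
  obtain ⟨F, h1, h2, _⟩ := hc i j
  refine conn_cycle hc.permOK hij F h2 ?_ (fun T hT => ((h1 T).1 hT).1) ?_ S ((h1 S).2 hS)
  · rw [h1]
    refine ⟨⟨mem_insert_self _ _, mem_insert_of_mem (mem_singleton_self _), ?_⟩, Or.inl ?_⟩
    · have := card_le_two (a := i) (b := j)
      omega
    · intro x hx
      rw [mem_insert, mem_singleton] at hx
      rcases hx with rfl | rfl
      · exact Or.inl rfl
      · exact Or.inr le_rfl
  · intro T hT hne
    have hg := ((h1 T).1 hT).1
    have h3 : ({i, j} : Finset (Fin k)) ⊆ T := by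
      intro x hx
      rw [mem_insert, mem_singleton] at hx
      rcases hx with rfl | rfl
      · exact hg.1
      · exact hg.2.1
    have h4 : ({i, j} : Finset (Fin k)).card < T.card :=
      card_lt_card (lt_of_le_of_ne h3 (Ne.symm hne))
    rw [card_pair hij.ne] at h4
    exact conn_inner hc hk (by omega) hg.2.2 i hg.1 j hg.2.1

theorem connected_big (hc : Cyc D π) (hk : 6 ≤ k) (hD : 3 ≤ D) : (GG D π).Connected := by
  have hcard4 : ∀ a b c d : ℕ, (four k a b c d).card ≤ D + 1 := fun a b c d =>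
    (card_four_le a b c d).trans (by omega)
  have hz : 0 < k := by omega
  have ho : 1 < k := by omega
  have hb : Valid D ((⟨0, hz⟩ : Fin k), ({⟨0, hz⟩, ⟨1, ho⟩} : Finset (Fin k))) := by
    refine ⟨mem_insert_self _ _, ?_, ?_⟩
    · simp only
      rw [card_pair (by simp)]
    · simp only
      rw [card_pair (by simp)]
      omega
  -- pairs `(0, j)`, `j < k - 1`
  have c0 : ∀ j : Fin k, 0 < j.1 → j.1 + 1 < k →
      Conn D π (⟨0, hz⟩, {⟨0, hz⟩, j}) (⟨0, hz⟩, {⟨0, hz⟩, ⟨1, ho⟩}) := by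
    intro j hj1 hj2
    by_cases hj : j.1 = 1
    · have : j = ⟨1, ho⟩ := Fin.ext hj
      rw [this]
      exact Conn.refl hb
    · have h1 : P D (⟨0, hz⟩ : Fin k) j (four k 0 1 j.1 (k - 1)) := by
        refine ⟨⟨mem_four.2 (Or.inl rfl), mem_four.2 (Or.inr (Or.inr (Or.inl rfl))),
          hcard4 _ _ _ _⟩, ?_⟩
        exact Or.inr (Or.inr (Or.inl ⟨rfl, by omega, hj2, rfl⟩))
      have h2 : P D (⟨0, hz⟩ : Fin k) ⟨1, ho⟩ (four k 0 1 j.1 (k - 1)) := by
        refine ⟨⟨mem_four.2 (Or.inl rfl), mem_four.2 (Or.inr (Or.inl rfl)),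
          hcard4 _ _ _ _⟩, Or.inl ?_⟩
        intro x _
        by_cases hx : x.1 = 0
        · exact Or.inl (Fin.ext hx)
        · right
          rw [Fin.le_def]
          simp only
          omega
      exact (conn_cyc hc hk (Fin.lt_def.2 hj1) (by omega) h1).1.trans
        (conn_cyc hc hk (Fin.lt_def.2 (by simp)) (by omega) h2).1.symm
  -- pairs `(i, j)`, `i < j < k - 1`
  have c1 : ∀ i j : Fin k, i < j → j.1 + 1 < k →
      Conn D π (i, {i, j}) (⟨0, hz⟩, {⟨0, hz⟩, ⟨1, ho⟩}) := by
    intro i j hij hj2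
    have hij' : i.1 < j.1 := hij
    by_cases hi : i.1 = 0
    · have : i = ⟨0, hz⟩ := Fin.ext hi
      rw [this]
      exact c0 j (by omega) hj2
    · have h1 : P D i j (four k 0 i.1 j.1 (k - 1)) := by
        refine ⟨⟨mem_four.2 (Or.inr (Or.inl rfl)), mem_four.2 (Or.inr (Or.inr (Or.inl rfl))),
          hcard4 _ _ _ _⟩, ?_⟩
        exact Or.inr (Or.inl ⟨by omega, hj2, rfl⟩)
      have h2 : P D (⟨0, hz⟩ : Fin k) i (four k 0 i.1 j.1 (k - 1)) := by
        refine ⟨⟨mem_four.2 (Or.inl rfl), mem_four.2 (Or.inr (Or.inl rfl)),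
          hcard4 _ _ _ _⟩, Or.inl ?_⟩
        intro x hx
        rcases mem_four.1 hx with h5 | h5 | h5 | h5
        · exact Or.inl (Fin.ext h5)
        · exact Or.inr (Fin.le_def.2 (by omega))
        · exact Or.inr (Fin.le_def.2 (by omega))
        · exact Or.inr (Fin.le_def.2 (by omega))
      have h3 := (conn_cyc hc hk hij (by omega) h1).1
      have h4 := (conn_cyc hc hk (Fin.lt_def.2 (show 0 < i.1 by omega)) (by omega) h2).2
      exact h3.trans (h4.symm.trans (c0 i (by omega) (by omega)))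
  -- large sets
  have c2 : ∀ (x : Fin k) (S : Finset (Fin k)), x ∈ S → 3 ≤ S.card → S.card ≤ D + 1 →
      Conn D π (x, S) (⟨0, hz⟩, {⟨0, hz⟩, ⟨1, ho⟩}) := by
    intro x S hx h3 hS
    have hne : S.Nonempty := ⟨x, hx⟩
    have hi : S.min' hne ∈ S := S.min'_mem hne
    have hile : ∀ y ∈ S, S.min' hne ≤ y := fun y hy => S.min'_le y hy
    generalize S.min' hne = i at hi hile
    have hce : (S.erase i).card = S.card - 1 := card_erase_of_mem hi
    have hne' : (S.erase i).Nonempty := by
      rw [← card_pos]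
      omega
    have hj : (S.erase i).min' hne' ∈ S.erase i := (S.erase i).min'_mem hne'
    have hjle : ∀ y ∈ S.erase i, (S.erase i).min' hne' ≤ y :=
      fun y hy => (S.erase i).min'_le y hy
    generalize (S.erase i).min' hne' = j at hj hjle
    have hjS : j ∈ S := (mem_erase.1 hj).2
    have hij : i < j := lt_of_le_of_ne (hile j hjS) (mem_erase.1 hj).1.symm
    have hP : P D i j S := by
      refine ⟨⟨hi, hjS, hS⟩, Or.inl ?_⟩
      intro y hy
      by_cases hyi : y = i
      · exact Or.inl hyi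
      · exact Or.inr (hjle y (mem_erase.2 ⟨hyi, hy⟩))
    have hjk : j.1 + 1 < k := by
      obtain ⟨z, hz⟩ : ((S.erase i).erase j).Nonempty := by
        rw [← card_pos, card_erase_of_mem hj]
        omega
      have h5 := mem_erase.1 hz
      have h6 : j < z := lt_of_le_of_ne (hjle z h5.2) h5.1.symm
      have h7 : j.1 < z.1 := h6
      have h8 := z.2
      omega
    exact (conn_inner hc hk h3 hS x hx i hi).trans
      ((conn_cyc hc hk hij (by omega) hP).1.symm.trans (c1 i j hij hjk))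
  -- pairs `(i, k - 1)`
  have c3 : ∀ i j : Fin k, i < j → Conn D π (i, {i, j}) (⟨0, hz⟩, {⟨0, hz⟩, ⟨1, ho⟩}) := by
    intro i j hij
    have hij' : i.1 < j.1 := hij
    by_cases hj2 : j.1 + 1 < k
    · exact c1 i j hij hj2
    · have hj3 : j.1 + 1 = k := by
        have := j.2
        omega
      have aux : ∀ b c : ℕ, 0 < b → b < c → c + 1 < k →
          ∀ a : ℕ, a < b → (i.1 = a ∨ i.1 = b ∨ i.1 = c) →
          P D i j (four k a b c (k - 1)) →
          Conn D π (i, {i, j}) (⟨0, hz⟩, {⟨0, hz⟩, ⟨1, ho⟩}) := by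
        intro b c hb0 hbc hck a hab hi hP
        refine (conn_cyc hc hk hij (by omega) hP).1.trans ?_
        refine c2 i _ hP.1.1 ?_ (hcard4 _ _ _ _)
        have hsub : ({⟨a, by omega⟩, ⟨b, by omega⟩, ⟨c, by omega⟩} : Finset (Fin k)) ⊆
            four k a b c (k - 1) := by
          intro z hz
          rw [mem_insert, mem_insert, mem_singleton] at hz
          rcases hz with rfl | rfl | rfl
          · exact mem_four.2 (by simp)
          · exact mem_four.2 (by simp)
          · exact mem_four.2 (by simp)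
        refine le_trans ?_ (card_le_card hsub)
        refine le_of_eq (Eq.symm (card_eq_three.2 ⟨_, _, _, ?_, ?_, ?_, rfl⟩))
        · rw [Ne, Fin.mk.injEq]
          omega
        · rw [Ne, Fin.mk.injEq]
          omega
        · rw [Ne, Fin.mk.injEq]
          omega
      by_cases e0 : i.1 = 0
      · refine aux 2 3 (by omega) (by omega) (by omega) 0 (by omega) (by omega) ?_
        exact ⟨⟨mem_four.2 (by omega), mem_four.2 (by omega), hcard4 _ _ _ _⟩,
          Or.inr (Or.inr (Or.inr ⟨hj3, Or.inl ⟨e0, rfl⟩⟩))⟩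
      by_cases e1 : i.1 = 1
      · refine aux 2 3 (by omega) (by omega) (by omega) 1 (by omega) (by omega) ?_
        exact ⟨⟨mem_four.2 (by omega), mem_four.2 (by omega), hcard4 _ _ _ _⟩,
          Or.inr (Or.inr (Or.inr ⟨hj3, Or.inr (Or.inl ⟨e1, rfl⟩)⟩))⟩
      by_cases e2 : i.1 = 2
      · refine aux 2 4 (by omega) (by omega) (by omega) 1 (by omega) (by omega) ?_
        exact ⟨⟨mem_four.2 (by omega), mem_four.2 (by omega), hcard4 _ _ _ _⟩,
          Or.inr (Or.inr (Or.inr ⟨hj3, Or.inr (Or.inr (Or.inl ⟨e2, rfl⟩))⟩))⟩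
      · refine aux 2 i.1 (by omega) (by omega) (by omega) 1 (by omega) (by omega) ?_
        exact ⟨⟨mem_four.2 (by omega), mem_four.2 (by omega), hcard4 _ _ _ _⟩,
          Or.inr (Or.inr (Or.inr ⟨hj3, Or.inr (Or.inr (Or.inr ⟨by omega, rfl⟩))⟩))⟩
  -- all vertices
  have c4 : ∀ (x : Fin k) (S : Finset (Fin k)), Valid D (x, S) →
      Conn D π (x, S) (⟨0, hz⟩, {⟨0, hz⟩, ⟨1, ho⟩}) := by
    intro x S hv
    by_cases h3 : 3 ≤ S.card
    · exact c2 x S hv.1 h3 hv.2.2
    · have h2 : S.card = 2 := by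
        have := hv.2.1
        simp only at this
        omega
      obtain ⟨y, z, hyz, rfl⟩ := card_eq_two.1 h2
      have main : ∀ i j : Fin k, i < j → ∀ w, (w = i ∨ w = j) →
          Conn D π (w, {i, j}) (⟨0, hz⟩, {⟨0, hz⟩, ⟨1, ho⟩}) := by
        intro i j hij w hw
        have hP : P D i j {i, j} := by
          refine ⟨⟨mem_insert_self _ _, mem_insert_of_mem (mem_singleton_self _), ?_⟩,
            Or.inl ?_⟩
          · have := card_le_two (a := i) (b := j)
            omega
          · intro x hx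
            rw [mem_insert, mem_singleton] at hx
            rcases hx with rfl | rfl
            · exact Or.inl rfl
            · exact Or.inr le_rfl
        have h5 := conn_cyc hc hk hij (by omega) hP
        rcases hw with rfl | rfl
        · exact c3 w j hij
        · exact h5.2.symm.trans (c3 i w hij)
      have hx := hv.1
      simp only [mem_insert, mem_singleton] at hx
      rcases lt_or_gt_of_ne hyz with hlt | hlt
      · exact main y z hlt x hx
      · rw [pair_comm]
        exact main z y hlt x hx.symm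
  have : Nonempty {p : Fin k × Finset (Fin k) // Valid D p} := ⟨⟨_, hb⟩⟩
  refine SimpleGraph.Connected.mk ?_
  intro p q
  obtain ⟨_, _, h1⟩ := c4 p.1.1 p.1.2 p.2
  obtain ⟨_, _, h2⟩ := c4 q.1.1 q.1.2 q.2
  exact h1.trans h2.symm

end Big

/-! ### The case `k = 5`, `Δ = 3` -/

section Small

/-- Neighbours in the graph of order `70`. -/
def nbTable : List (List (Fin 70)) :=
  [[16], [32], [18, 30], [48], [20, 44], [40, 46], [14, 34, 52], [66], [22, 64], [36, 58],
   [24, 38, 56], [50, 68], [26, 42, 60], [28, 54, 62], [6], [38], [0, 30], [51], [2, 44],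
   [33, 47], [4, 34, 48], [62], [8, 66], [41, 61], [10, 37, 58], [43, 65], [12, 52, 57], [29,
   55, 69], [13], [27], [2, 16], [48], [1, 46], [19, 55], [6, 20, 47], [67], [9, 59], [24,
   61], [10, 15, 62], [53, 60], [5, 54, 68], [23, 45, 69], [12], [25], [4, 18], [41], [5,
   32], [19, 34], [3, 20, 31], [69], [11, 65], [17, 64], [6, 26, 66], [39, 67], [13, 40, 68],
   [27, 33, 63], [10], [26], [9, 24], [36], [12, 39], [23, 37], [13, 21, 38], [55], [8, 51],
   [25, 50], [7, 22, 52], [35, 53], [11, 40, 54], [27, 41, 49]]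

/-- Colours in the graph of order `70`. -/
def colTable : List (Fin 5) :=
  [0, 0, 0, 0, 0, 0, 0, 0, 0, 0, 0, 0, 0, 0, 1, 1, 1, 1, 1, 1, 1, 1, 1, 1, 1, 1, 1, 1, 2, 2,
   2, 2, 2, 2, 2, 2, 2, 2, 2, 2, 2, 2, 3, 3, 3, 3, 3, 3, 3, 3, 3, 3, 3, 3, 3, 3, 4, 4, 4, 4,
   4, 4, 4, 4, 4, 4, 4, 4, 4, 4]

/-- Parents in a spanning tree. -/
def parTable : List (Fin 70) :=
  [0, 32, 30, 48, 44, 40, 34, 66, 22, 58, 24, 68, 26, 62, 6, 38, 0, 51, 2, 47, 4, 62, 66, 41,
   37, 65, 52, 55, 13, 27, 16, 48, 46, 19, 20, 67, 9, 61, 10, 60, 54, 69, 12, 25, 18, 41, 5,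
   34, 20, 69, 11, 64, 6, 39, 13, 33, 10, 26, 24, 36, 12, 23, 38, 55, 8, 50, 52, 53, 54, 27]

/-- Depths in a spanning tree. -/
def depTable : List ℕ :=
  [0, 29, 3, 9, 6, 26, 9, 12, 13, 21, 20, 26, 12, 23, 10, 22, 1, 16, 4, 10, 7, 23, 12, 16,
   19, 29, 11, 13, 24, 14, 2, 9, 28, 11, 8, 17, 22, 18, 21, 14, 25, 15, 13, 30, 5, 16, 27, 9,
   8, 15, 27, 15, 10, 15, 24, 12, 21, 12, 20, 23, 13, 17, 22, 13, 14, 28, 11, 16, 25, 14]

/-- Neighbours of a vertex. -/
def nb (u : Fin 70) : List (Fin 70) := nbTable.getD u.1 []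

/-- Colour of a vertex. -/
def co (u : Fin 70) : Fin 5 := colTable.getD u.1 0

/-- Parent of a vertex. -/
def pa (u : Fin 70) : Fin 70 := parTable.getD u.1 0

/-- Depth of a vertex. -/
def de (u : Fin 70) : ℕ := depTable.getD u.1 0

/-- A number that encodes the colour of a vertex and the colours of its neighbours. -/
def code (u : Fin 70) : ℕ :=
  32 * (co u).1 + ((if (nb u).any (fun w => co w == 0) then 1 else 0)
    + (if (nb u).any (fun w => co w == 1) then 2 else 0)
    + (if (nb u).any (fun w => co w == 2) then 4 else 0)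
    + (if (nb u).any (fun w => co w == 3) then 8 else 0)
    + (if (nb u).any (fun w => co w == 4) then 16 else 0))

theorem nb_symm : ∀ u : Fin 70, ∀ v ∈ nb u, u ∈ nb v := by decide +kernel

theorem nb_col : ∀ u : Fin 70, ∀ v ∈ nb u, co u ≠ co v := by decide +kernel

theorem nb_len : ∀ u : Fin 70, (nb u).length ≤ 3 := by decide +kernel

theorem nb_pos : ∀ u : Fin 70, nb u ≠ [] := by decide +kernel

theorem code_lt : ∀ u : Fin 69, code u.castSucc < code u.succ := by decide +kernel

theorem tree_ok : ∀ u : Fin 70, u = 0 ∨ (pa u ∈ nb u ∧ de (pa u) < de u) := by decide +kernel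

theorem co_surj : ∀ i : Fin 5, ∃ u : Fin 70, co u = i := by decide +kernel

/-- The graph of order `70`. -/
def G70 : SimpleGraph (Fin 70) where
  Adj u v := v ∈ nb u
  symm := by
    constructor
    intro u v h
    exact nb_symm u v h
  loopless := by
    constructor
    intro u h
    exact nb_col u u h rfl

theorem code_inj : Function.Injective code :=
  (Fin.strictMono_iff_lt_succ.2 code_lt).injective

theorem G70_deg (v : Fin 70) : (G70.neighborSet v).ncard ≤ 3 := by
  have h : G70.neighborSet v = ↑((nb v).toFinset) := by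
    ext w
    simp [G70]
  rw [h, Set.ncard_coe_finset]
  exact (List.toFinset_card_le _).trans (nb_len v)

theorem G70_nl : IsNL G70 co := by
  constructor
  · intro u v h
    exact nb_col u v h
  · intro u v hne hc heq
    apply hne
    apply code_inj
    have h : ∀ i : Fin 5, ((nb u).any (fun w => co w == i)) = ((nb v).any (fun w => co w == i)) := by
      intro i
      have h1 : i ∈ nbrColors G70 co u ↔ i ∈ nbrColors G70 co v := by rw [heq]
      rw [Bool.eq_iff_iff, List.any_eq_true, List.any_eq_true]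
      simp only [beq_iff_eq]
      simpa [nbrColors, G70] using h1
    unfold code
    rw [hc, h 0, h 1, h 2, h 3, h 4]

theorem G70_conn : G70.Connected := by
  refine SimpleGraph.Connected.mk ?_
  have key : ∀ n : ℕ, ∀ u : Fin 70, de u ≤ n → G70.Reachable u 0 := by
    intro n
    induction n with
    | zero =>
      intro u hu
      rcases tree_ok u with h | ⟨_, h2⟩
      · rw [h]
      · omega
    | succ n ih =>
      intro u hu
      rcases tree_ok u with h | ⟨h1, h2⟩
      · rw [h]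
      · have h3 : G70.Adj u (pa u) := h1
        exact h3.reachable.trans (ih _ (by omega))
  intro u v
  exact (key _ u le_rfl).trans (key _ v le_rfl).symm

end Small

/-- **Theorem.** For all `k ≥ 5` and `3 ≤ Δ ≤ k - 2` there is a connected graph `G` with
`χ_NL(G) = k`, maximum degree `Δ` and exactly `B(k, Δ) = ∑_{j=1}^{Δ} k * C(k-1, j)` vertices. -/
theorem result (k Δ : ℕ) (hk : 5 ≤ k) (h3 : 3 ≤ Δ) (hΔ : Δ ≤ k - 2) :
    ∃ (V : Type) (_ : Fintype V) (G : SimpleGraph V),
      G.Connected ∧ ChiNLEq G k ∧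
      (∀ v, (G.neighborSet v).ncard ≤ Δ) ∧ (∃ v, (G.neighborSet v).ncard = Δ) ∧
      Fintype.card V = ∑ j ∈ Icc 1 Δ, k * (k - 1).choose j := by
  rcases Nat.lt_or_ge k 6 with h | h
  · have hk5 : k = 5 := by omega
    have hΔ3 : Δ = 3 := by omega
    subst hk5
    subst hΔ3
    have hcard : Fintype.card (Fin 70) = ∑ j ∈ Icc 1 3, 5 * (5 - 1).choose j := by decide
    refine ⟨Fin 70, inferInstance, G70, G70_conn, ⟨⟨co, co_surj, G70_nl⟩, ?_⟩, G70_deg,
      ⟨6, ?_⟩, hcard⟩
    · refine nl_lower G70 5 3 (by norm_num) (by norm_num) G70_deg ?_ hcard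
      intro v
      obtain ⟨w, hw⟩ := List.exists_mem_of_ne_nil _ (nb_pos v)
      exact ⟨w, hw⟩
    · have h6 : G70.neighborSet 6 = ↑((nb 6).toFinset) := by
        ext w
        simp [G70]
      have h7 : (nb 6).toFinset.card = 3 := by decide +kernel
      rw [h6, Set.ncard_coe_finset, h7]
  · obtain ⟨π, hc⟩ := exists_cyc k Δ
    exact family_result (by omega) (by omega) (by omega) hc.permOK (connected_big hc h h3)

end Pool.Agent.Results.MP_3eb9f6_co.BoundAttained
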